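import Pool.Agent.X127.FR.Main

set_option autoImplicit false

open Finset Filter Topology Complex MeasureTheory ProbabilityTheory
open scoped ENNReal NNReal

namespace Pool.Agent.X127.FR

/-- In a factorisation of a Markov kernel of finite rank with independent measures the functions
are bounded. -/
theorem bounded_coeff {S : Type*} [MeasurableSpace S] {r : ℕ} (b : Fin r → SignedMeasure S)
    (hb : LinearIndependent ℝ b) :
    ∃ C : ℝ, ∀ c : Fin r → ℝ, (∀ B, MeasurableSet B → 0 ≤ ∑ j, c j * b j B ∧
      ∑ j, c j * b j B ≤ 1) → ∀ j, |c j| ≤ C := by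
  classical
  let Ψ : (Fin r → ℝ) →ₗ[ℝ] ({B : Set S // MeasurableSet B} → ℝ) :=
    { toFun := fun c B => ∑ j, c j * b j B.1
      map_add' := fun c d => by
        ext B
        simp only [Pi.add_apply, add_mul, Finset.sum_add_distrib]
      map_smul' := fun t c => by
        ext B
        simp only [Pi.smul_apply, smul_eq_mul, RingHom.id_apply, Finset.mul_sum, mul_assoc] }
  have hker : LinearMap.ker Ψ = ⊥ := by
    rw [LinearMap.ker_eq_bot']
    intro c hc
    have h1 : ∑ j, c j • b j = 0 := by
      ext B hB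
      have h2 := congrFun hc ⟨B, hB⟩
      have h3 : (∑ j, c j • b j) B = ∑ j, c j * b j B := by
        have h6 : ∀ s : Finset (Fin r), (∑ j ∈ s, c j • b j) B = ∑ j ∈ s, c j * b j B := by
          intro s
          induction s using Finset.induction_on with
          | empty => simp
          | insert j s hj ih =>
            rw [Finset.sum_insert hj, Finset.sum_insert hj, _root_.add_apply, ih]
            rfl
        exact h6 _
      rw [h3]
      exact h2
    have h4 := (Fintype.linearIndependent_iff.1 hb) c h1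
    ext j
    exact h4 j
  have hemb := LinearMap.isClosedEmbedding_of_injective hker
  have hcomp : IsCompact (Ψ ⁻¹' (Set.pi Set.univ (fun _ => Set.Icc (0 : ℝ) 1))) :=
    hemb.isCompact_preimage (isCompact_univ_pi (fun _ => isCompact_Icc))
  obtain ⟨C, hC⟩ := hcomp.isBounded.exists_norm_le
  refine ⟨C, fun c hc j => ?_⟩
  have h1 : c ∈ Ψ ⁻¹' (Set.pi Set.univ (fun _ => Set.Icc (0 : ℝ) 1)) := by
    intro B _
    exact hc B.1 B.2
  have h2 := hC c h1
  rw [← Real.norm_eq_abs]
  exact (norm_le_pi_norm c j).trans h2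

section

variable {S : Type*} [MeasurableSpace S] (κ : Kernel S S) {r : ℕ} (a : Fin r → S → ℝ)
  (b : Fin r → SignedMeasure S) (G : Set S)

/-- the dominating measure -/
noncomputable def dom : Measure S := ∑ j, (b j).totalVariation

instance : IsFiniteMeasure (dom b) := by
  unfold dom
  have : ∀ s : Finset (Fin r), IsFiniteMeasure (∑ j ∈ s, (b j).totalVariation) := by
    classical
    intro s
    induction s using Finset.induction_on with
    | empty => rw [Finset.sum_empty]; infer_instance
    | insert j s hj ih =>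
      rw [Finset.sum_insert hj]
      have : IsFiniteMeasure (b j).totalVariation := by
        unfold SignedMeasure.totalVariation
        infer_instance
      infer_instance
  exact this _

theorem dens (j : Fin r) {B : Set S} (hB : MeasurableSet B) :
    b j B = ∫ x in B, (b j).rnDeriv (dom b) x ∂(dom b) := by
  have hac : b j ≪ᵥ (dom b).toENNRealVectorMeasure := by
    refine VectorMeasure.AbsolutelyContinuous.mk (fun B hB h0 => ?_)
    rw [Measure.toENNRealVectorMeasure_apply_measurable hB] at h0
    apply SignedMeasure.null_of_totalVariation_zero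
    unfold dom at h0
    rw [Measure.finset_sum_apply] at h0
    exact (Finset.sum_eq_zero_iff.1 h0) j (Finset.mem_univ _)
  conv_lhs => rw [← SignedMeasure.withDensityᵥ_rnDeriv_eq (b j) (dom b) hac]
  rw [withDensityᵥ_apply (SignedMeasure.integrable_rnDeriv _ _) hB]

/-- the density as an element of `L¹` -/
noncomputable def rh (j : Fin r) : Lp ℝ 1 ((dom b).restrict G) :=
  ((SignedMeasure.integrable_rnDeriv (b j) (dom b)).restrict (s := G)).toL1 _

theorem rh_int {G : Set S} (j : Fin r) {B : Set S} (hB : MeasurableSet B) (hG : MeasurableSet G) :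
    ∫ x in B, (rh b G j) x ∂((dom b).restrict G) = b j (B ∩ G) := by
  rw [dens b j (hB.inter hG), ← Measure.restrict_restrict hB]
  apply integral_congr_ae
  exact ae_restrict_of_ae (Integrable.coeFn_toL1 _)

variable (ha : ∀ j, Measurable (a j)) (hb : LinearIndependent ℝ b)
  (hκ : ∀ x B, MeasurableSet B → (κ x B).toReal = ∑ j, a j x * b j B)

include hb hκ in
theorem a_bdd [IsMarkovKernel κ] : ∀ j, ∃ C : ℝ, ∀ x, |a j x| ≤ C := by
  obtain ⟨C, hC⟩ := bounded_coeff b hb
  intro j
  refine ⟨C, fun x => hC (fun j => a j x) (fun B hB => ?_) j⟩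
  rw [← hκ x B hB]
  refine ⟨ENNReal.toReal_nonneg, ?_⟩
  have : κ x B ≤ 1 := prob_le_one
  exact ENNReal.toReal_le_of_le_ofReal zero_le_one (by simpa using this)

/-- integrals of finite sums -/
theorem sum_int (t : Fin r → ℝ) {G : Set S} {B : Set S} (hB : MeasurableSet B)
    (hG : MeasurableSet G) :
    ∫ x in B, ((∑ k, t k • rh b G k : Lp ℝ 1 ((dom b).restrict G)) : S → ℝ) x
      ∂((dom b).restrict G) = ∑ k, t k * b k (B ∩ G) := by
  have h1 : ((∑ k, t k • rh b G k : Lp ℝ 1 ((dom b).restrict G)) : S → ℝ)
      =ᵐ[(dom b).restrict G] fun x => ∑ k, t k * (rh b G k) x := by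
    have h2 : ∀ᵐ x ∂((dom b).restrict G), ∀ k, ((t k • rh b G k :
        Lp ℝ 1 ((dom b).restrict G)) : S → ℝ) x = t k * (rh b G k) x := by
      rw [ae_all_iff]
      intro k
      filter_upwards [Lp.coeFn_smul (t k) (rh b G k)] with x hx
      rw [hx]; rfl
    have h3 := Lp.coeFn_finsetSum (μ := (dom b).restrict G) (p := 1) Finset.univ
      (fun k => t k • rh b G k)
    filter_upwards [h2, h3] with x hx hx3
    rw [hx3, Finset.sum_apply]
    exact Finset.sum_congr rfl (fun k _ => hx k)
  rw [integral_congr_ae (ae_restrict_of_ae h1), integral_finset_sum]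
  · refine Finset.sum_congr rfl (fun k _ => ?_)
    rw [integral_const_mul, rh_int b k hB hG]
  · intro k _
    exact ((L1.integrable_coeFn (rh b G k)).const_mul _).integrableOn

include ha in
theorem pos_aux [IsMarkovKernel κ] {G : Set S} (hG : MeasurableSet G)
    (hκ : ∀ x B, MeasurableSet B → (κ x B).toReal = ∑ j, a j x * b j B)
    (hab : ∀ j, ∃ C : ℝ, ∀ x, |a j x| ≤ C)
    (h : Lp ℝ 1 ((dom b).restrict G)) (hh : 0 ≤ h) (B : Set S) (hB : MeasurableSet B) :
    0 ≤ ∑ k, (∫ x in B, a k x * h x ∂((dom b).restrict G)) • rh b G k := by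
  rw [← Lp.coeFn_nonneg]
  apply ae_nonneg_of_forall_setIntegral_nonneg (L1.integrable_coeFn _)
  intro B' hB' _
  rw [sum_int b _ hB' hG]
  have h1 : ∀ k, (∫ x in B, a k x * h x ∂((dom b).restrict G)) * b k (B' ∩ G)
      = ∫ x in B, a k x * h x * b k (B' ∩ G) ∂((dom b).restrict G) := fun k =>
    (integral_mul_const _ _).symm
  simp only [h1]
  rw [← integral_finset_sum]
  · apply integral_nonneg_of_ae
    filter_upwards [ae_restrict_of_ae (s := B) ((Lp.coeFn_nonneg h).2 hh)] with x hx
    have h2 : ∑ k, a k x * h x * b k (B' ∩ G) = h x * (κ x (B' ∩ G)).toReal := by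
      rw [hκ x _ (hB'.inter hG), Finset.mul_sum]
      refine Finset.sum_congr rfl (fun k _ => by ring)
    dsimp only [Pi.zero_apply]
    rw [h2]
    exact mul_nonneg hx ENNReal.toReal_nonneg
  · intro k _
    obtain ⟨C, hC⟩ := hab k
    exact ((int_mul (ha k) hC h).integrableOn).mul_const _

end

end Pool.Agent.X127.FR
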