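import Pool.Agent.X127.FR.Lim

set_option autoImplicit false

open Finset Filter Topology Complex MeasureTheory

namespace Pool.Agent.X127.FR

variable {Ω : Type*} [MeasurableSpace Ω] {μ : Measure Ω} [IsFiniteMeasure μ]

theorem int_mul {f : Ω → ℝ} (hf : Measurable f) {C : ℝ} (hC : ∀ x, |f x| ≤ C) (h : Lp ℝ 1 μ) :
    Integrable (fun x => f x * h x) μ := by
  have h1 : Integrable (fun x => h x) μ := L1.integrable_coeFn h
  refine h1.bdd_mul (c := C) hf.aestronglyMeasurable (Eventually.of_forall (fun x => ?_))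
  rw [Real.norm_eq_abs]; exact hC x

/-- the functional `h ↦ ∫_B f h` -/
noncomputable def IB (f : Ω → ℝ) (hf : Measurable f) (hb : ∃ C : ℝ, ∀ x, |f x| ≤ C) (B : Set Ω) :
    Lp ℝ 1 μ →ₗ[ℝ] ℝ where
  toFun h := ∫ x in B, f x * h x ∂μ
  map_add' h k := by
    obtain ⟨C, hC⟩ := hb
    rw [← integral_add (int_mul hf hC h).integrableOn (int_mul hf hC k).integrableOn]
    apply integral_congr_ae
    have h1 := ae_restrict_of_ae (s := B) (Lp.coeFn_add h k)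
    filter_upwards [h1] with x hx
    rw [hx, Pi.add_apply, mul_add]
  map_smul' c h := by
    rw [RingHom.id_apply, smul_eq_mul, ← integral_const_mul]
    apply integral_congr_ae
    have h1 := ae_restrict_of_ae (s := B) (Lp.coeFn_smul c h)
    filter_upwards [h1] with x hx
    rw [hx, Pi.smul_apply, smul_eq_mul]
    ring

theorem IB_apply (f : Ω → ℝ) (hf : Measurable f) (hb : ∃ C : ℝ, ∀ x, |f x| ≤ C) (B : Set Ω)
    (h : Lp ℝ 1 μ) : IB f hf hb B h = ∫ x in B, f x * h x ∂μ := rfl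

theorem IB_union (f : Ω → ℝ) (hf : Measurable f) (hb : ∃ C : ℝ, ∀ x, |f x| ≤ C) (B : Set Ω)
    (hB : MeasurableSet B) (h : Lp ℝ 1 μ) :
    IB f hf hb Set.univ h = IB f hf hb B h + IB f hf hb Bᶜ h := by
  obtain ⟨C, hC⟩ := hb
  simp only [IB_apply]
  rw [Measure.restrict_univ, integral_add_compl hB (int_mul hf hC h)]

/-- Data of a positive operator of finite rank on `L¹`. -/
structure Op (μ : Measure Ω) [IsFiniteMeasure μ] where
  r : ℕ
  a : Fin r → Ω → ℝ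
  ρ : Fin r → Lp ℝ 1 μ
  meas : ∀ k, Measurable (a k)
  bdd : ∀ k, ∃ C : ℝ, ∀ x, |a k x| ≤ C
  c : ℝ
  c0 : 0 ≤ c
  pos : ∀ h : Lp ℝ 1 μ, 0 ≤ h → ∀ B, MeasurableSet B →
    0 ≤ ∑ k, (∫ x in B, a k x * h x ∂μ) • ρ k

namespace Op

variable (O : Op μ)

/-- `h ↦ (h 1_B) T` -/
noncomputable def TB (B : Set Ω) : Lp ℝ 1 μ →ₗ[ℝ] Lp ℝ 1 μ :=
  O.c • ∑ k, (IB (O.a k) (O.meas k) (O.bdd k) B).smulRight (O.ρ k)

theorem TB_apply (B : Set Ω) (h : Lp ℝ 1 μ) :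
    O.TB B h = O.c • ∑ k, (∫ x in B, O.a k x * h x ∂μ) • O.ρ k := by
  simp only [TB, LinearMap.smul_apply, LinearMap.sum_apply, LinearMap.smulRight_apply, IB_apply]

theorem Lp_smul_nonneg {c : ℝ} (hc : 0 ≤ c) {h : Lp ℝ 1 μ} (hh : 0 ≤ h) : 0 ≤ c • h := by
  rw [← Lp.coeFn_nonneg] at hh ⊢
  filter_upwards [hh, Lp.coeFn_smul c h] with x h1 h2
  rw [h2]
  exact mul_nonneg hc h1

theorem TB_nonneg {B : Set Ω} (hB : MeasurableSet B) {h : Lp ℝ 1 μ} (hh : 0 ≤ h) :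
    0 ≤ O.TB B h := by
  rw [TB_apply]
  exact Lp_smul_nonneg O.c0 (O.pos h hh B hB)

/-- the operator -/
noncomputable def T : Lp ℝ 1 μ →ₗ[ℝ] Lp ℝ 1 μ := O.TB Set.univ

theorem T_nonneg {h : Lp ℝ 1 μ} (hh : 0 ≤ h) : 0 ≤ O.T h := O.TB_nonneg MeasurableSet.univ hh

theorem T_split {B : Set Ω} (hB : MeasurableSet B) (h : Lp ℝ 1 μ) :
    O.T h = O.TB B h + O.TB Bᶜ h := by
  simp only [T, TB, LinearMap.smul_apply, LinearMap.sum_apply, LinearMap.smulRight_apply]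
  rw [← smul_add, ← Finset.sum_add_distrib]
  congr 1
  refine Finset.sum_congr rfl (fun k _ => ?_)
  rw [IB_union (O.a k) (O.meas k) (O.bdd k) B hB h, add_smul]

theorem pow_succ_apply (h : Lp ℝ 1 μ) (n : ℕ) : (O.T ^ (n + 1)) h = O.T ((O.T ^ n) h) := by
  rw [pow_succ', Module.End.mul_apply]

theorem pow_nonneg {h : Lp ℝ 1 μ} (hh : 0 ≤ h) (n : ℕ) : 0 ≤ (O.T ^ n) h := by
  induction n with
  | zero => simpa using hh
  | succ n ih => rw [pow_succ', Module.End.mul_apply]; exact O.T_nonneg ih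

/-- the total mass -/
noncomputable def g : Lp ℝ 1 μ →ₗ[ℝ] ℝ :=
  IB (fun _ => 1) measurable_const ⟨1, fun _ => by simp⟩ Set.univ

theorem g_apply (h : Lp ℝ 1 μ) : g h = ∫ x, h x ∂μ := by
  unfold g
  rw [IB_apply, Measure.restrict_univ]
  simp

theorem g_nonneg {h : Lp ℝ 1 μ} (hh : 0 ≤ h) : 0 ≤ g h := by
  rw [g_apply]
  exact integral_nonneg_of_ae ((Lp.coeFn_nonneg h).2 hh)

theorem norm_eq_g {h : Lp ℝ 1 μ} (hh : 0 ≤ h) : ‖h‖ = g h := by
  rw [g_apply, L1.norm_eq_integral_norm]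
  apply integral_congr_ae
  filter_upwards [(Lp.coeFn_nonneg h).2 hh] with x hx
  exact Real.norm_of_nonneg hx

/-- the span of the `ρ k` -/
def V : Submodule ℝ (Lp ℝ 1 μ) := Submodule.span ℝ (Set.range O.ρ)

theorem TB_mem (B : Set Ω) (h : Lp ℝ 1 μ) : O.TB B h ∈ O.V := by
  rw [TB_apply]
  apply Submodule.smul_mem
  apply Submodule.sum_mem
  intro k _
  exact Submodule.smul_mem _ _ (Submodule.subset_span ⟨k, rfl⟩)

theorem T_mem (h : Lp ℝ 1 μ) : O.T h ∈ O.V := O.TB_mem _ h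

theorem pow_mem {h : Lp ℝ 1 μ} (hh : h ∈ O.V) (n : ℕ) : (O.T ^ n) h ∈ O.V := by
  cases n with
  | zero => simpa using hh
  | succ n => rw [pow_succ', Module.End.mul_apply]; exact O.T_mem _

/-- the elements of `V` with bounded mass along the orbit -/
def F : Submodule ℝ (Lp ℝ 1 μ) where
  carrier := {h | h ∈ O.V ∧ ∃ C : ℝ, ∀ n, ‖g ((O.T ^ n) h)‖ ≤ C}
  zero_mem' := ⟨O.V.zero_mem, 0, fun n => by simp⟩
  add_mem' := by
    rintro h k ⟨h1, C, hC⟩ ⟨k1, D, hD⟩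
    refine ⟨O.V.add_mem h1 k1, C + D, fun n => ?_⟩
    rw [map_add, map_add]
    exact (norm_add_le _ _).trans (add_le_add (hC n) (hD n))
  smul_mem' := by
    rintro c h ⟨h1, C, hC⟩
    refine ⟨O.V.smul_mem c h1, ‖c‖ * C, fun n => ?_⟩
    rw [map_smul, map_smul, smul_eq_mul, norm_mul]
    exact mul_le_mul_of_nonneg_left (hC n) (norm_nonneg _)

theorem F_le : O.F ≤ O.V := fun _ h => h.1

instance : FiniteDimensional ℝ O.V := FiniteDimensional.span_of_finite ℝ (Set.finite_range _)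

instance : FiniteDimensional ℝ O.F := Submodule.finiteDimensional_of_le O.F_le

theorem F_T {h : Lp ℝ 1 μ} (hh : h ∈ O.F) : O.T h ∈ O.F := by
  obtain ⟨h1, C, hC⟩ := hh
  refine ⟨O.T_mem h, C, fun n => ?_⟩
  rw [← Module.End.mul_apply, ← pow_succ]
  exact hC (n + 1)

theorem F_pow {h : Lp ℝ 1 μ} (hh : h ∈ O.F) (n : ℕ) : (O.T ^ n) h ∈ O.F := by
  induction n with
  | zero => simpa using hh
  | succ n ih => rw [pow_succ', Module.End.mul_apply]; exact O.F_T ih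

theorem F_TB {h : Lp ℝ 1 μ} (hh : h ∈ O.F) (h0 : 0 ≤ h) {B : Set Ω} (hB : MeasurableSet B) :
    O.TB B h ∈ O.F := by
  obtain ⟨h1, C, hC⟩ := hh
  refine ⟨O.TB_mem B h, C, fun n => ?_⟩
  have e : (O.T ^ (n + 1)) h = (O.T ^ n) (O.TB B h) + (O.T ^ n) (O.TB Bᶜ h) := by
    rw [pow_succ, Module.End.mul_apply, O.T_split hB, map_add]
  have p1 := g_nonneg (O.pow_nonneg (O.TB_nonneg hB h0) n)
  have p2 := g_nonneg (O.pow_nonneg (O.TB_nonneg hB.compl h0) n)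
  have p3 := hC (n + 1)
  rw [e, map_add, Real.norm_of_nonneg (by linarith)] at p3
  rw [Real.norm_of_nonneg p1]
  linarith

/-- the average mass along the orbit -/
noncomputable def al : O.F →ₗ[ℝ] ℝ where
  toFun h := L (fun n => g ((O.T ^ n) (h : Lp ℝ 1 μ)))
  map_add' h k := by
    rw [← L_add h.2.2 k.2.2]
    congr 1
    ext n
    rw [Submodule.coe_add, map_add, map_add]
  map_smul' c h := by
    rw [RingHom.id_apply, smul_eq_mul, ← L_smul c h.2.2]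
    congr 1
    ext n
    rw [Submodule.coe_smul, map_smul, map_smul, smul_eq_mul]

theorem bw {w : ℂ} (hw : ‖w‖ = 1) (h : O.F) :
    ∃ C : ℝ, ∀ n, ‖w ^ n * (g ((O.T ^ n) (h : Lp ℝ 1 μ)) : ℂ)‖ ≤ C := by
  obtain ⟨C, hC⟩ := h.2.2
  refine ⟨C, fun n => ?_⟩
  rw [norm_mul, norm_pow, hw, one_pow, one_mul, Complex.norm_real]
  exact hC n

/-- the Fourier coefficient of the mass along the orbit -/
noncomputable def be (w : ℂ) (hw : ‖w‖ = 1) : O.F →ₗ[ℝ] ℂ where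
  toFun h := L (fun n => w ^ n * (g ((O.T ^ n) (h : Lp ℝ 1 μ)) : ℂ))
  map_add' h k := by
    rw [← L_add (O.bw hw h) (O.bw hw k)]
    congr 1
    ext n
    rw [Submodule.coe_add, map_add, map_add]
    push_cast
    ring
  map_smul' c h := by
    rw [RingHom.id_apply, Complex.real_smul, ← L_smul (c : ℂ) (O.bw hw h)]
    congr 1
    ext n
    rw [Submodule.coe_smul, map_smul, map_smul, smul_eq_mul]
    push_cast
    ring

theorem be_le {w : ℂ} (hw : ‖w‖ = 1) (h : O.F) (h0 : 0 ≤ (h : Lp ℝ 1 μ)) :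
    ‖O.be w hw h‖ ≤ O.al h := by
  refine L_norm_le (fun n => ?_) h.2.2
  rw [norm_mul, norm_pow, hw, one_pow, one_mul, Complex.norm_real]
  rw [Real.norm_of_nonneg (g_nonneg (O.pow_nonneg h0 n))]

theorem al_T (h : O.F) : O.al ⟨O.T h, O.F_T h.2⟩ = O.al h := by
  have h1 := L_shift (𝕜 := ℝ) (s := fun n => g ((O.T ^ n) (h : Lp ℝ 1 μ))) (w := 1)
    (by simp) h.2.2
  simp only [one_pow, one_mul, inv_one] at h1
  change L (fun n => g ((O.T ^ n) (O.T (h : Lp ℝ 1 μ)))) = L _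
  rw [← h1]
  congr 1

theorem be_T {w : ℂ} (hw : ‖w‖ = 1) (h : O.F) :
    O.be w hw ⟨O.T h, O.F_T h.2⟩ = w⁻¹ * O.be w hw h := by
  have hb : ∃ C : ℝ, ∀ n, ‖(g ((O.T ^ n) (h : Lp ℝ 1 μ)) : ℂ)‖ ≤ C := by
    obtain ⟨C, hC⟩ := h.2.2
    exact ⟨C, fun n => by rw [Complex.norm_real]; exact hC n⟩
  have h1 := L_shift (𝕜 := ℂ) (s := fun n => (g ((O.T ^ n) (h : Lp ℝ 1 μ)) : ℂ)) hw hb
  change L (fun n => w ^ n * (g ((O.T ^ n) (O.T (h : Lp ℝ 1 μ))) : ℂ)) = w⁻¹ * L _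
  rw [← h1]
  congr 1

theorem al_pow (h : O.F) (n : ℕ) : O.al ⟨(O.T ^ n) h, O.F_pow h.2 n⟩ = O.al h := by
  induction n with
  | zero => simp
  | succ n ih =>
    have e : (⟨(O.T ^ (n + 1)) h, O.F_pow h.2 (n + 1)⟩ : O.F) =
        ⟨O.T ((⟨(O.T ^ n) h, O.F_pow h.2 n⟩ : O.F) : Lp ℝ 1 μ), O.F_T (O.F_pow h.2 n)⟩ :=
      Subtype.ext (O.pow_succ_apply h n)
    rw [e, O.al_T, ih]

theorem be_pow {w : ℂ} (hw : ‖w‖ = 1) (h : O.F) (n : ℕ) :
    O.be w hw ⟨(O.T ^ n) h, O.F_pow h.2 n⟩ = (w⁻¹) ^ n * O.be w hw h := by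
  induction n with
  | zero => simp
  | succ n ih =>
    have e : (⟨(O.T ^ (n + 1)) h, O.F_pow h.2 (n + 1)⟩ : O.F) =
        ⟨O.T ((⟨(O.T ^ n) h, O.F_pow h.2 n⟩ : O.F) : Lp ℝ 1 μ), O.F_T (O.F_pow h.2 n)⟩ :=
      Subtype.ext (O.pow_succ_apply h n)
    rw [e, O.be_T, ih, ← mul_assoc, ← pow_succ']

/-- the equality case of the triangle inequality -/
theorem eq_case {x y z : ℂ} {s t C : ℝ} (hC : ‖z‖ = C) (hxy : x + y = z) (hst : s + t = 1)
    (hx : ‖x‖ ≤ C * s) (hy : ‖y‖ ≤ C * t) : x = z * s := by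
  have hC0 : 0 ≤ C := hC ▸ norm_nonneg z
  -- real inner products with `z`
  have h1 : (x * (starRingEnd ℂ) z).re ≤ C * s * C := by
    calc (x * (starRingEnd ℂ) z).re ≤ ‖x * (starRingEnd ℂ) z‖ := Complex.re_le_norm _
      _ = ‖x‖ * C := by rw [norm_mul, RCLike.norm_conj, hC]
      _ ≤ C * s * C := mul_le_mul_of_nonneg_right hx hC0
  have h2 : (y * (starRingEnd ℂ) z).re ≤ C * t * C := by
    calc (y * (starRingEnd ℂ) z).re ≤ ‖y * (starRingEnd ℂ) z‖ := Complex.re_le_norm _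
      _ = ‖y‖ * C := by rw [norm_mul, RCLike.norm_conj, hC]
      _ ≤ C * t * C := mul_le_mul_of_nonneg_right hy hC0
  have h3 : (x * (starRingEnd ℂ) z).re + (y * (starRingEnd ℂ) z).re = C ^ 2 := by
    rw [← Complex.add_re, ← add_mul, hxy, Complex.mul_conj, Complex.ofReal_re,
      Complex.normSq_eq_norm_sq, hC]
  have h4 : (x * (starRingEnd ℂ) z).re = C ^ 2 * s := by
    have : C * s * C + C * t * C = C ^ 2 := by
      have : C * s * C + C * t * C = C ^ 2 * (s + t) := by ring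
      rw [this, hst, mul_one]
    nlinarith
  have h5 : ‖x - z * s‖ ^ 2 = ‖x‖ ^ 2 - 2 * s * (x * (starRingEnd ℂ) z).re + s ^ 2 * C ^ 2 := by
    rw [← Complex.normSq_eq_norm_sq, Complex.normSq_sub, Complex.normSq_mul,
      Complex.normSq_eq_norm_sq, Complex.normSq_eq_norm_sq, hC, Complex.normSq_ofReal]
    have : (x * (starRingEnd ℂ) (z * s)).re = s * (x * (starRingEnd ℂ) z).re := by
      rw [map_mul, Complex.conj_ofReal, ← mul_assoc, mul_comm, Complex.re_ofReal_mul]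
    rw [this]
    ring
  have hs0 : 0 ≤ C * s := (norm_nonneg _).trans hx
  have h6 : ‖x‖ ^ 2 ≤ (C * s) ^ 2 := pow_le_pow_left₀ (norm_nonneg _) hx 2
  have h7 : ‖x - z * s‖ ^ 2 ≤ 0 := by
    rw [h5, h4]
    nlinarith
  have h8 : ‖x - z * s‖ = 0 := by
    have := sq_nonneg ‖x - z * s‖
    exact pow_eq_zero_iff (two_ne_zero) |>.1 (le_antisymm h7 this)
  exact sub_eq_zero.1 (norm_eq_zero.1 h8)

end Op

end Pool.Agent.X127.FR
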