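import Mathlib

set_option autoImplicit false

open Finset Filter Topology Complex

namespace Pool.Agent.X127.FR

/-- Generalised limit of the averages of a sequence. -/
noncomputable def L {𝕜 : Type} [RCLike 𝕜] (s : ℕ → 𝕜) : 𝕜 :=
  limUnder (hyperfilter ℕ : Filter ℕ) (fun N => (∑ n ∈ range N, s n) / (N : 𝕜))

section

variable {𝕜 : Type} [RCLike 𝕜]

theorem avg_le {s : ℕ → 𝕜} {C : ℝ} (hs : ∀ n, ‖s n‖ ≤ C) (N : ℕ) :
    ‖(∑ n ∈ range N, s n) / (N : 𝕜)‖ ≤ C := by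
  have hC : 0 ≤ C := (norm_nonneg _).trans (hs 0)
  rcases Nat.eq_zero_or_pos N with h | h
  · subst h; simp [hC]
  · have hN : (0 : ℝ) < N := by exact_mod_cast h
    rw [norm_div, RCLike.norm_natCast, div_le_iff₀ hN]
    calc ‖∑ n ∈ range N, s n‖ ≤ ∑ n ∈ range N, ‖s n‖ := norm_sum_le _ _
      _ ≤ ∑ n ∈ range N, C := Finset.sum_le_sum (fun n _ => hs n)
      _ = C * N := by rw [Finset.sum_const, Finset.card_range, nsmul_eq_mul, mul_comm]

theorem L_tendsto {s : ℕ → 𝕜} (hs : ∃ C : ℝ, ∀ n, ‖s n‖ ≤ C) :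
    Tendsto (fun N => (∑ n ∈ range N, s n) / (N : 𝕜)) (hyperfilter ℕ : Filter ℕ) (𝓝 (L s)) := by
  obtain ⟨C, hC⟩ := hs
  have hK : IsCompact (Metric.closedBall (0 : 𝕜) C) := isCompact_closedBall _ _
  have h1 : ∀ N, (∑ n ∈ range N, s n) / (N : 𝕜) ∈ Metric.closedBall (0 : 𝕜) C := fun N => by
    rw [mem_closedBall_zero_iff]; exact avg_le hC N
  obtain ⟨x, -, hx⟩ := hK.ultrafilter_le_nhds
    ((hyperfilter ℕ).map (fun N => (∑ n ∈ range N, s n) / (N : 𝕜)))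
    (by
      rw [le_principal_iff]
      exact Filter.mem_map.2 (Filter.univ_mem' h1))
  exact tendsto_nhds_limUnder ⟨x, hx⟩

theorem L_eq {s : ℕ → 𝕜} {x : 𝕜}
    (h : Tendsto (fun N => (∑ n ∈ range N, s n) / (N : 𝕜)) atTop (𝓝 x)) : L s = x :=
  (h.mono_left Nat.hyperfilter_le_atTop).limUnder_eq

theorem L_add {s t : ℕ → 𝕜} (hs : ∃ C : ℝ, ∀ n, ‖s n‖ ≤ C) (ht : ∃ C : ℝ, ∀ n, ‖t n‖ ≤ C) :
    L (fun n => s n + t n) = L s + L t := by
  apply Tendsto.limUnder_eq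
  refine ((L_tendsto hs).add (L_tendsto ht)).congr (fun N => ?_)
  rw [Finset.sum_add_distrib, add_div]

theorem L_smul {s : ℕ → 𝕜} (c : 𝕜) (hs : ∃ C : ℝ, ∀ n, ‖s n‖ ≤ C) :
    L (fun n => c * s n) = c * L s := by
  apply Tendsto.limUnder_eq
  refine ((L_tendsto hs).const_mul c).congr (fun N => ?_)
  rw [← Finset.mul_sum, mul_div_assoc]

theorem L_norm_le {s : ℕ → 𝕜} {t : ℕ → ℝ} (h : ∀ n, ‖s n‖ ≤ t n) (ht : ∃ C : ℝ, ∀ n, ‖t n‖ ≤ C) :
    ‖L s‖ ≤ L t := by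
  obtain ⟨C, hC⟩ := ht
  have hs : ∃ C : ℝ, ∀ n, ‖s n‖ ≤ C := ⟨C, fun n => (h n).trans ((le_abs_self _).trans (hC n))⟩
  refine le_of_tendsto_of_tendsto (L_tendsto hs).norm (L_tendsto ⟨C, hC⟩)
    (Filter.Eventually.of_forall (fun N => ?_))
  dsimp only
  rw [norm_div, RCLike.norm_natCast]
  have : ((N : ℝ) : ℝ) = N := rfl
  apply div_le_div_of_nonneg_right _ (Nat.cast_nonneg N)
  exact (norm_sum_le _ _).trans (Finset.sum_le_sum (fun n _ => h n))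

theorem L_lower {t : ℕ → ℝ} {c : ℝ} (h : ∀ n, c ≤ t n) (ht : ∃ C : ℝ, ∀ n, ‖t n‖ ≤ C) :
    c ≤ L t := by
  refine ge_of_tendsto (L_tendsto ht) ?_
  have h1 : ∀ᶠ N : ℕ in (hyperfilter ℕ : Filter ℕ), 0 < N :=
    Nat.hyperfilter_le_atTop (eventually_gt_atTop 0)
  filter_upwards [h1] with N hN
  have hN' : (0 : ℝ) < N := by exact_mod_cast hN
  rw [le_div_iff₀ hN']
  calc c * N = ∑ n ∈ range N, c := by
        rw [Finset.sum_const, Finset.card_range, nsmul_eq_mul, mul_comm]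
    _ ≤ ∑ n ∈ range N, t n := Finset.sum_le_sum (fun n _ => h n)

theorem L_shift {s : ℕ → 𝕜} {w : 𝕜} (hw : ‖w‖ = 1) (hs : ∃ C : ℝ, ∀ n, ‖s n‖ ≤ C) :
    L (fun n => w ^ n * s (n + 1)) = w⁻¹ * L (fun n => w ^ n * s n) := by
  obtain ⟨C, hC⟩ := hs
  have hC0 : 0 ≤ C := (norm_nonneg _).trans (hC 0)
  have hw0 : w ≠ 0 := by
    intro h; rw [h, norm_zero] at hw; exact zero_ne_one hw
  have hb : ∃ C : ℝ, ∀ n, ‖w ^ n * s n‖ ≤ C := ⟨C, fun n => by
    rw [norm_mul, norm_pow, hw, one_pow, one_mul]; exact hC n⟩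
  apply Tendsto.limUnder_eq
  have h1 := (L_tendsto hb).const_mul w⁻¹
  have h2 : Tendsto (fun N : ℕ => w⁻¹ * ((w ^ N * s N - s 0) / (N : 𝕜))) atTop (𝓝 0) := by
    rw [tendsto_zero_iff_norm_tendsto_zero]
    have h3 : Tendsto (fun N : ℕ => (2 * C) / (N : ℝ)) atTop (𝓝 0) :=
      tendsto_const_div_atTop_nhds_zero_nat _
    refine squeeze_zero (fun _ => norm_nonneg _) (fun N => ?_) h3
    rw [norm_mul, norm_inv, hw, inv_one, one_mul, norm_div, RCLike.norm_natCast]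
    apply div_le_div_of_nonneg_right _ (Nat.cast_nonneg N)
    calc ‖w ^ N * s N - s 0‖ ≤ ‖w ^ N * s N‖ + ‖s 0‖ := norm_sub_le _ _
      _ ≤ C + C := by
          rw [norm_mul, norm_pow, hw, one_pow, one_mul]; exact add_le_add (hC N) (hC 0)
      _ = 2 * C := by ring
  have h4 := h1.add (h2.mono_left Nat.hyperfilter_le_atTop)
  rw [add_zero] at h4
  refine h4.congr (fun N => ?_)
  have h5 : ∑ n ∈ range N, w ^ n * s (n + 1) = w⁻¹ * (∑ n ∈ range N, w ^ n * s n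
      + (w ^ N * s N - s 0)) := by
    have h6 := Finset.sum_range_succ (fun n => w ^ n * s n) N
    have h7 := Finset.sum_range_succ' (fun n => w ^ n * s n) N
    rw [pow_zero, one_mul] at h7
    have h8 : ∑ n ∈ range N, w ^ (n + 1) * s (n + 1) = w * ∑ n ∈ range N, w ^ n * s (n + 1) := by
      rw [Finset.mul_sum]
      refine Finset.sum_congr rfl (fun n _ => ?_)
      rw [pow_succ]; ring
    rw [h8] at h7
    have h9 : ∑ n ∈ range N, w ^ n * s n + (w ^ N * s N - s 0)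
        = w * ∑ n ∈ range N, w ^ n * s (n + 1) := by
      linear_combination h7 - h6
    rw [h9, ← mul_assoc, inv_mul_cancel₀ hw0, one_mul]
  rw [h5]
  ring

theorem L_pow {z : 𝕜} (hz : ‖z‖ = 1) (hz1 : z ≠ 1) : L (fun n => z ^ n) = 0 := by
  apply L_eq
  rw [tendsto_zero_iff_norm_tendsto_zero]
  have hz2 : 0 < ‖z - 1‖ := norm_pos_iff.2 (sub_ne_zero.2 hz1)
  have h3 : Tendsto (fun N : ℕ => (2 / ‖z - 1‖) / (N : ℝ)) atTop (𝓝 0) :=
    tendsto_const_div_atTop_nhds_zero_nat _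
  refine squeeze_zero (fun _ => norm_nonneg _) (fun N => ?_) h3
  rw [norm_div, RCLike.norm_natCast]
  apply div_le_div_of_nonneg_right _ (Nat.cast_nonneg N)
  rw [geom_sum_eq hz1, norm_div]
  apply div_le_div_of_nonneg_right _ hz2.le
  calc ‖z ^ N - 1‖ ≤ ‖z ^ N‖ + ‖(1 : 𝕜)‖ := norm_sub_le _ _
    _ = 2 := by rw [norm_pow, hz, one_pow, norm_one]; norm_num

theorem L_const (c : 𝕜) : L (fun _ => c) = c := by
  apply L_eq
  refine tendsto_const_nhds.congr' ?_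
  filter_upwards [eventually_gt_atTop 0] with N hN
  have : (N : 𝕜) ≠ 0 := by exact_mod_cast hN.ne'
  rw [Finset.sum_const, Finset.card_range, nsmul_eq_mul]
  field_simp

/-- if the averages tend to something less than `b` then some term is less than `b` -/
theorem exists_lt {t : ℕ → ℝ} {b : ℝ} (ht : ∃ C : ℝ, ∀ n, ‖t n‖ ≤ C) (h : L t < b) :
    ∃ n, t n ≤ b := by
  by_contra hc
  push Not at hc
  have := L_lower (fun n => (hc n).le) ht
  linarith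

end

end Pool.Agent.X127.FR
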