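import Pool.Agent.X127.FR.Core

set_option autoImplicit false

open Finset Filter Topology Complex MeasureTheory

namespace Pool.Agent.X127.FR

variable {Ω : Type*} [MeasurableSpace Ω] {μ : Measure Ω} [IsFiniteMeasure μ]

namespace Op

variable (O : Op μ)

theorem contra (h0 : Lp ℝ 1 μ) (h0n : 0 ≤ h0) (w : ℂ) (hw : ‖w‖ = 1)
    (hwr : ∀ n : ℕ, 0 < n → w ^ n ≠ 1) (hb : ∃ C : ℝ, ∀ n, ‖g ((O.T ^ n) h0)‖ ≤ C)
    (hne : L (fun n => w ^ n * (g ((O.T ^ n) (O.T h0)) : ℂ)) ≠ 0) : False := by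
  classical
  have hw0 : w ≠ 0 := by
    intro h; rw [h, norm_zero] at hw; exact zero_ne_one hw
  have hwi : ‖w⁻¹‖ = 1 := by rw [norm_inv, hw, inv_one]
  have h1mem : O.T h0 ∈ O.F := by
    obtain ⟨C, hC⟩ := hb
    refine ⟨O.T_mem h0, C, fun n => ?_⟩
    rw [← Module.End.mul_apply, ← pow_succ]
    exact hC (n + 1)
  set h1 : O.F := ⟨O.T h0, h1mem⟩ with hh1
  have h1n : 0 ≤ (h1 : Lp ℝ 1 μ) := O.T_nonneg h0n
  have hbe1 : O.be w hw h1 ≠ 0 := hne
  have hal1 : 0 < O.al h1 := (norm_pos_iff.2 hbe1).trans_le (O.be_le hw h1 h1n)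
  -- the compact set
  set K : Set O.F := {h | 0 ≤ (h : Lp ℝ 1 μ) ∧ O.al h = 1 ∧ g (h : Lp ℝ 1 μ) ≤ 2} with hK
  have hcal : Continuous O.al := O.al.continuous_of_finiteDimensional
  have hcbe : Continuous (O.be w hw) := (O.be w hw).continuous_of_finiteDimensional
  have hcg : Continuous (fun h : O.F => g (h : Lp ℝ 1 μ)) :=
    (g.comp O.F.subtype).continuous_of_finiteDimensional
  have hKc : IsCompact K := by
    apply Metric.isCompact_of_isClosed_isBounded
    · have c1 : IsClosed {h : O.F | 0 ≤ (h : Lp ℝ 1 μ)} :=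
        isClosed_le continuous_const continuous_subtype_val
      have c2 : IsClosed {h : O.F | O.al h = 1} := isClosed_eq hcal continuous_const
      have c3 : IsClosed {h : O.F | g (h : Lp ℝ 1 μ) ≤ 2} := isClosed_le hcg continuous_const
      exact c1.inter (c2.inter c3)
    · refine (Metric.isBounded_closedBall (x := (0 : O.F)) (r := 2)).subset ?_
      rintro h ⟨k1, -, k3⟩
      rw [mem_closedBall_zero_iff, Submodule.coe_norm, norm_eq_g k1]
      exact k3
  have reduce : ∀ h : O.F, 0 ≤ (h : Lp ℝ 1 μ) → 0 < O.al h →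
      ∃ h' ∈ K, ‖O.be w hw h'‖ = ‖O.be w hw h‖ / O.al h := by
    intro h hh hal
    set h2 : O.F := (O.al h)⁻¹ • h with hh2
    have h2n : 0 ≤ (h2 : Lp ℝ 1 μ) := by
      rw [hh2, Submodule.coe_smul]
      exact Lp_smul_nonneg (inv_nonneg.2 hal.le) hh
    have h2a : O.al h2 = 1 := by
      rw [hh2, map_smul, smul_eq_mul, inv_mul_cancel₀ hal.ne']
    have h2b : ‖O.be w hw h2‖ = ‖O.be w hw h‖ / O.al h := by
      rw [hh2, map_smul, norm_smul, norm_inv, Real.norm_of_nonneg hal.le]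
      field_simp
    have hex : ∃ n, g ((O.T ^ n) (h2 : Lp ℝ 1 μ)) ≤ 2 := by
      refine exists_lt h2.2.2 ?_
      have : L (fun n => g ((O.T ^ n) (h2 : Lp ℝ 1 μ))) = 1 := h2a
      rw [this]; norm_num
    obtain ⟨n, hn⟩ := hex
    refine ⟨⟨(O.T ^ n) h2, O.F_pow h2.2 n⟩, ⟨O.pow_nonneg h2n n, ?_, hn⟩, ?_⟩
    · rw [O.al_pow, h2a]
    · rw [O.be_pow, norm_mul, norm_pow, hwi, one_pow, one_mul, h2b]
  obtain ⟨h1', h1'K, h1'b⟩ := reduce h1 h1n hal1
  obtain ⟨hs, hsK, hmax⟩ := hKc.exists_isMaxOn ⟨h1', h1'K⟩ (hcbe.norm.continuousOn)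
  set C := ‖O.be w hw hs‖ with hC
  have hCpos : 0 < C := by
    have h2 : ‖O.be w hw h1'‖ ≤ C := hmax h1'K
    rw [h1'b] at h2
    exact (div_pos (norm_pos_iff.2 hbe1) hal1).trans_le h2
  have claim1 : ∀ h : O.F, 0 ≤ (h : Lp ℝ 1 μ) → ‖O.be w hw h‖ ≤ C * O.al h := by
    intro h hh
    have h3 := O.be_le hw h hh
    rcases (norm_nonneg _).trans h3 |>.eq_or_lt with h4 | h4
    · rw [← h4, mul_zero]; rw [← h4] at h3; exact h3
    · obtain ⟨h', h'K, h'b⟩ := reduce h hh h4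
      have h5 : ‖O.be w hw h'‖ ≤ C := hmax h'K
      rw [h'b, div_le_iff₀ h4] at h5
      exact h5
  -- the orbit of the maximiser
  set hn : ℕ → O.F := fun n => ⟨(O.T ^ n) hs, O.F_pow hs.2 n⟩ with hhn
  have hnn : ∀ n, 0 ≤ ((hn n : O.F) : Lp ℝ 1 μ) := fun n => O.pow_nonneg hsK.1 n
  have hna : ∀ n, O.al (hn n) = 1 := fun n => by rw [hhn]; dsimp only; rw [O.al_pow, hsK.2.1]
  set z : ℕ → ℂ := fun n => (w⁻¹) ^ (n + 1) * O.be w hw hs with hz
  have hnb : ∀ n, w⁻¹ * O.be w hw (hn n) = z n := fun n => by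
    rw [hhn, hz]; dsimp only; rw [O.be_pow, ← mul_assoc, ← pow_succ']
  have hzn : ∀ n, ‖z n‖ = C := fun n => by
    rw [hz]; dsimp only; rw [norm_mul, norm_pow, hwi, one_pow, one_mul]
  have hzinj : ∀ n m, z n = z m → n = m := by
    have key : ∀ n m, n < m → z n ≠ z m := by
      intro n m hnm h
      have hbe0 : O.be w hw hs ≠ 0 := norm_pos_iff.1 hCpos
      have h2 : (w⁻¹) ^ (n + 1) = (w⁻¹) ^ (m + 1) := mul_right_cancel₀ hbe0 h
      rw [inv_pow, inv_pow, inv_inj] at h2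
      obtain ⟨d, rfl⟩ := Nat.exists_eq_add_of_lt hnm
      apply hwr (d + 1) (Nat.succ_pos d)
      have h3 : w ^ (n + 1) * w ^ (d + 1) = w ^ (n + 1) * 1 := by
        rw [← pow_add, mul_one, show n + 1 + (d + 1) = n + d + 1 + 1 by ring, ← h2]
      exact mul_left_cancel₀ (pow_ne_zero _ hw0) h3
    intro n m h
    rcases lt_trichotomy n m with h1 | h1 | h1
    · exact absurd h (key n m h1)
    · exact h1
    · exact absurd h.symm (key m n h1)
  have claim2 : ∀ n (B : Set Ω) (hB : MeasurableSet B),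
      O.be w hw ⟨O.TB B (hn n), O.F_TB (hn n).2 (hnn n) hB⟩ =
        z n * (O.al ⟨O.TB B (hn n), O.F_TB (hn n).2 (hnn n) hB⟩ : ℝ) := by
    intro n B hB
    have e : (⟨O.T (hn n), O.F_T (hn n).2⟩ : O.F) =
        ⟨O.TB B (hn n), O.F_TB (hn n).2 (hnn n) hB⟩ +
        ⟨O.TB Bᶜ (hn n), O.F_TB (hn n).2 (hnn n) hB.compl⟩ :=
      Subtype.ext (O.T_split hB (hn n : Lp ℝ 1 μ))
    refine eq_case (hzn n) (y := O.be w hw ⟨O.TB Bᶜ (hn n), O.F_TB (hn n).2 (hnn n) hB.compl⟩)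
      (t := O.al ⟨O.TB Bᶜ (hn n), O.F_TB (hn n).2 (hnn n) hB.compl⟩) ?_ ?_
      (claim1 _ (O.TB_nonneg hB (hnn n))) (claim1 _ (O.TB_nonneg hB.compl (hnn n)))
    · rw [← map_add, ← e, O.be_T, hnb]
    · rw [← map_add, ← e, O.al_T, hna]
  -- densities
  obtain ⟨A', hA'⟩ := LinearMap.exists_extend O.al
  obtain ⟨B', hB'⟩ := LinearMap.exists_extend (O.be w hw)
  have hA'' : ∀ h : O.F, A' (h : Lp ℝ 1 μ) = O.al h := fun h => by
    rw [← hA']; rfl
  have hB'' : ∀ h : O.F, B' (h : Lp ℝ 1 μ) = O.be w hw h := fun h => by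
    rw [← hB']; rfl
  set Af : Ω → ℝ := fun y => ∑ k, (O.c * A' (O.ρ k)) * O.a k y with hAf
  set Bf : Ω → ℂ := fun y => ∑ k, ((O.c : ℂ) * B' (O.ρ k)) * (O.a k y : ℂ) with hBf
  have hAm : Measurable Af := Finset.measurable_sum _ (fun k _ => (O.meas k).const_mul _)
  have hBm : Measurable Bf := Finset.measurable_sum _ (fun k _ =>
    (Complex.measurable_ofReal.comp (O.meas k)).const_mul _)
  have hint : ∀ (h : Lp ℝ 1 μ) k, Integrable (fun x => O.a k x * h x) μ := by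
    intro h k
    obtain ⟨C, hC⟩ := O.bdd k
    exact int_mul (O.meas k) hC h
  have hintC : ∀ (h : Lp ℝ 1 μ) k, Integrable (fun x => ((O.a k x * h x : ℝ) : ℂ)) μ :=
    fun h k => (hint h k).ofReal
  have hAfh : ∀ (h : Lp ℝ 1 μ) x, Af x * h x = ∑ k, (O.c * A' (O.ρ k)) * (O.a k x * h x) := by
    intro h x
    rw [hAf]; dsimp only
    rw [Finset.sum_mul]
    refine Finset.sum_congr rfl (fun k _ => by ring)
  have hBfh : ∀ (h : Lp ℝ 1 μ) x, Bf x * (h x : ℂ) =
      ∑ k, ((O.c : ℂ) * B' (O.ρ k)) * ((O.a k x * h x : ℝ) : ℂ) := by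
    intro h x
    rw [hBf]; dsimp only
    rw [Finset.sum_mul]
    refine Finset.sum_congr rfl (fun k _ => by push_cast; ring)
  have hAint : ∀ (h : Lp ℝ 1 μ), Integrable (fun x => Af x * h x) μ := by
    intro h
    simp only [hAfh]
    exact integrable_finset_sum _ (fun k _ => (hint h k).const_mul _)
  have hBint : ∀ (h : Lp ℝ 1 μ), Integrable (fun x => Bf x * (h x : ℂ)) μ := by
    intro h
    simp only [hBfh]
    exact integrable_finset_sum _ (fun k _ => (hintC h k).const_mul _)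
  have hAB : ∀ (h : Lp ℝ 1 μ) (B : Set Ω), A' (O.TB B h) = ∫ x in B, Af x * h x ∂μ := by
    intro h B
    simp only [hAfh]
    rw [integral_finset_sum _ (fun k _ => ((hint h k).const_mul _).integrableOn)]
    rw [TB_apply, map_smul, map_sum, smul_eq_mul, Finset.mul_sum]
    refine Finset.sum_congr rfl (fun k _ => ?_)
    rw [map_smul, smul_eq_mul, integral_const_mul]
    ring
  have hBB : ∀ (h : Lp ℝ 1 μ) (B : Set Ω), B' (O.TB B h) = ∫ x in B, Bf x * (h x : ℂ) ∂μ := by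
    intro h B
    simp only [hBfh]
    rw [integral_finset_sum _ (fun k _ => ((hintC h k).const_mul _).integrableOn)]
    rw [TB_apply, map_smul, map_sum, Complex.real_smul, Finset.mul_sum]
    refine Finset.sum_congr rfl (fun k _ => ?_)
    rw [map_smul, Complex.real_smul, integral_const_mul, integral_complex_ofReal]
    ring
  have claim3 : ∀ n, ∀ᵐ y ∂μ, (hn n : Lp ℝ 1 μ) y ≠ 0 → Bf y = z n * (Af y : ℂ) := by
    intro n
    set h : Lp ℝ 1 μ := (hn n : Lp ℝ 1 μ) with hh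
    have hi2 : Integrable (fun x => z n * ((Af x * h x : ℝ) : ℂ)) μ :=
      (hAint h).ofReal.const_mul _
    have hi : Integrable (fun x => Bf x * (h x : ℂ) - z n * ((Af x * h x : ℝ) : ℂ)) μ :=
      (hBint h).sub hi2
    have h0 := hi.ae_eq_zero_of_forall_setIntegral_eq_zero (fun B hB _ => by
      rw [integral_sub (hBint h).integrableOn hi2.integrableOn,
        integral_const_mul, integral_complex_ofReal, ← hBB, ← hAB]
      have e1 := hB'' ⟨O.TB B h, O.F_TB (hn n).2 (hnn n) hB⟩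
      have e2 := hA'' ⟨O.TB B h, O.F_TB (hn n).2 (hnn n) hB⟩
      have e3 := claim2 n B hB
      dsimp only at e1 e2
      rw [e1, e2, e3, sub_self])
    filter_upwards [h0] with y hy hne
    have hne' : (h y : ℂ) ≠ 0 := by exact_mod_cast hne
    have h5 : (Bf y - z n * (Af y : ℂ)) * (h y : ℂ) = 0 := by
      have h6 : Bf y * (h y : ℂ) - z n * ((Af y * h y : ℝ) : ℂ) = 0 := hy
      push_cast at h6
      linear_combination h6
    rcases mul_eq_zero.1 h5 with h6 | h6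
    · exact sub_eq_zero.1 h6
    · exact absurd h6 hne'
  set D : ℕ → Set Ω := fun n => {y | Bf y = z n * (Af y : ℂ) ∧ Af y ≠ 0} with hD
  have hDm : ∀ n, MeasurableSet (D n) := by
    intro n
    have m1 : MeasurableSet {y | Bf y = z n * (Af y : ℂ)} :=
      measurableSet_eq_fun hBm ((Complex.measurable_ofReal.comp hAm).const_mul _)
    have m2 : MeasurableSet {y | Af y ≠ 0} := (measurableSet_eq_fun hAm measurable_const).compl
    exact m1.inter m2
  have hgi : ∀ (h : Lp ℝ 1 μ), Integrable (fun x => h x) μ := fun h => L1.integrable_coeFn h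
  have claim4 : ∀ n m, n ≠ m → ∫ x in D m, (hn n : Lp ℝ 1 μ) x ∂μ = 0 := by
    intro n m hnm
    have h5 : ∀ᵐ x ∂(μ.restrict (D m)), (hn n : Lp ℝ 1 μ) x = 0 := by
      rw [ae_restrict_iff' (hDm m)]
      filter_upwards [claim3 n] with y hy hyD
      by_contra hc
      have h6 := hy hc
      have h7 : z n * (Af y : ℂ) = z m * (Af y : ℂ) := by rw [← h6]; exact hyD.1
      have h8 : (Af y : ℂ) ≠ 0 := by exact_mod_cast hyD.2
      exact hnm (hzinj n m (mul_right_cancel₀ h8 h7))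
    rw [integral_congr_ae h5]
    simp
  have claim5 : ∀ n, ∫ x in D n, (hn n : Lp ℝ 1 μ) x ∂μ ≠ 0 := by
    intro n hc
    rw [setIntegral_eq_zero_iff_of_nonneg_ae
      (ae_restrict_of_ae ((Lp.coeFn_nonneg _).2 (hnn n))) (hgi _).integrableOn] at hc
    have hc' : ∀ᵐ x ∂μ, x ∈ D n → (hn n : Lp ℝ 1 μ) x = 0 := by
      rw [← ae_restrict_iff' (hDm n)]
      exact hc
    have h5 : ∀ᵐ x ∂μ, Af x * (hn n : Lp ℝ 1 μ) x = 0 := by
      filter_upwards [claim3 n, hc'] with y hy1 hy2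
      by_cases h6 : (hn n : Lp ℝ 1 μ) y = 0
      · rw [h6, mul_zero]
      · have h7 := hy1 h6
        by_cases h8 : Af y = 0
        · rw [h8, zero_mul]
        · exact absurd (hy2 ⟨h7, h8⟩) h6
    have h6 := hAB (hn n : Lp ℝ 1 μ) Set.univ
    rw [Measure.restrict_univ, integral_congr_ae h5] at h6
    have h7 := hA'' ⟨O.T (hn n), O.F_T (hn n).2⟩
    rw [O.al_T, hna] at h7
    change A' (O.TB Set.univ (hn n)) = 1 at h7
    rw [h7] at h6
    simp at h6
  -- linear independence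
  have hli : LinearIndependent ℝ hn := by
    rw [linearIndependent_iff']
    intro s c hsum m hm
    set φ : Lp ℝ 1 μ →ₗ[ℝ] ℝ := IB (fun _ => 1) measurable_const ⟨1, fun _ => by simp⟩ (D m) with hφ
    have hφa : ∀ h : Lp ℝ 1 μ, φ h = ∫ x in D m, h x ∂μ := fun h => by
      rw [hφ, IB_apply]; simp
    have h5 : φ ((∑ i ∈ s, c i • hn i : O.F) : Lp ℝ 1 μ) = 0 := by
      rw [hsum]; simp
    rw [Submodule.coe_sum, map_sum] at h5
    have h6 : ∀ i ∈ s, i ≠ m → φ ((c i • hn i : O.F) : Lp ℝ 1 μ) = 0 := by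
      intro i _ him
      rw [Submodule.coe_smul, map_smul, hφa, claim4 i m him, smul_zero]
    rw [Finset.sum_eq_single_of_mem m hm h6, Submodule.coe_smul, map_smul, hφa, smul_eq_mul] at h5
    rcases mul_eq_zero.1 h5 with h7 | h7
    · exact h7
    · exact absurd h7 (claim5 m)
  have := hli.finite_of_isNoetherian
  exact not_finite ℕ

end Op

end Pool.Agent.X127.FR
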