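import Pool.Agent.X127.FR.Bridge

set_option autoImplicit false

open Finset Filter Topology Complex MeasureTheory ProbabilityTheory
open scoped ENNReal NNReal

namespace Pool.Agent.X127.FR

section

variable {S : Type*} [MeasurableSpace S] {Ω' : Type*} [MeasurableSpace Ω'] (P' : Measure Ω')
  [IsProbabilityMeasure P'] (X : ℕ → Ω' → S) (G : Set S)

/-- the event that the first `n + 1` values are in `G` -/
def ev (n : ℕ) : Set Ω' := {ω | ∀ i : Fin (n + 1), X i ω ∈ G}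

/-- the law of `X n` on this event -/
noncomputable def nu (n : ℕ) : Measure S := (P'.restrict (ev X G n)).map (X n)

instance (n : ℕ) : IsFiniteMeasure (nu P' X G n) := by unfold nu; infer_instance

variable (κ : Kernel S S) [IsMarkovKernel κ]

theorem nu_step (hX : ∀ n, Measurable (X n)) (hG : MeasurableSet G)
    (hM : ∀ (n : ℕ) (C : Set (Fin (n + 1) → S)) (B : Set S), MeasurableSet C → MeasurableSet B →
      P' {ω | (fun i : Fin (n + 1) => X i ω) ∈ C ∧ X (n + 1) ω ∈ B} =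
        ∫⁻ ω in {ω | (fun i : Fin (n + 1) => X i ω) ∈ C}, κ (X n ω) B ∂P')
    (n : ℕ) {B : Set S} (hB : MeasurableSet B) :
    nu P' X G (n + 1) B = ∫⁻ x, κ x (B ∩ G) ∂(nu P' X G n) := by
  have hC : MeasurableSet {x : Fin (n + 1) → S | ∀ i, x i ∈ G} := by
    have : {x : Fin (n + 1) → S | ∀ i, x i ∈ G} = ⋂ i, (fun x : Fin (n + 1) → S => x i) ⁻¹' G := by
      ext x; simp
    rw [this]
    exact MeasurableSet.iInter (fun i => measurable_pi_apply i hG)
  have h1 := hM n _ (B ∩ G) hC (hB.inter hG)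
  unfold nu
  rw [Measure.map_apply (hX _) hB, Measure.restrict_apply (hX _ hB),
    lintegral_map (Kernel.measurable_coe κ (hB.inter hG)) (hX n)]
  have e1 : X (n + 1) ⁻¹' B ∩ ev X G (n + 1) =
      {ω | (fun i : Fin (n + 1) => X i ω) ∈ {x : Fin (n + 1) → S | ∀ i, x i ∈ G} ∧
        X (n + 1) ω ∈ B ∩ G} := by
    ext ω
    constructor
    · rintro ⟨p1, p2⟩
      refine ⟨fun i => ?_, p1, ?_⟩
      · have := p2 i.castSucc
        simpa using this
      · have := p2 (Fin.last (n + 1))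
        simpa using this
    · rintro ⟨p1, p2, p3⟩
      refine ⟨p2, fun i => ?_⟩
      refine Fin.lastCases ?_ (fun i => ?_) i
      · simpa using p3
      · simpa using p1 i
  rw [e1, h1]
  rfl

variable {r : ℕ} (a : Fin r → S → ℝ) (b : Fin r → SignedMeasure S)

theorem nu_real (hX : ∀ n, Measurable (X n)) (hG : MeasurableSet G)
    (hM : ∀ (n : ℕ) (C : Set (Fin (n + 1) → S)) (B : Set S), MeasurableSet C → MeasurableSet B →
      P' {ω | (fun i : Fin (n + 1) => X i ω) ∈ C ∧ X (n + 1) ω ∈ B} =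
        ∫⁻ ω in {ω | (fun i : Fin (n + 1) => X i ω) ∈ C}, κ (X n ω) B ∂P')
    (ha : ∀ j, Measurable (a j)) (hab : ∀ j, ∃ C : ℝ, ∀ x, |a j x| ≤ C)
    (hκ : ∀ x B, MeasurableSet B → (κ x B).toReal = ∑ j, a j x * b j B)
    (n : ℕ) {B : Set S} (hB : MeasurableSet B) :
    (nu P' X G (n + 1) B).toReal = ∑ k, (∫ x, a k x ∂(nu P' X G n)) * b k (B ∩ G) := by
  rw [nu_step P' X G κ hX hG hM n hB, ← integral_toReal
    (Kernel.measurable_coe κ (hB.inter hG)).aemeasurable
    (Eventually.of_forall (fun x => measure_lt_top _ _))]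
  simp only [hκ _ _ (hB.inter hG)]
  have hint : ∀ k, Integrable (a k) (nu P' X G n) := by
    intro k
    obtain ⟨C, hC⟩ := hab k
    exact Integrable.of_bound (ha k).aestronglyMeasurable C
      (Eventually.of_forall (fun x => by rw [Real.norm_eq_abs]; exact hC x))
  rw [integral_finset_sum _ (fun k _ => (hint k).mul_const _)]
  refine Finset.sum_congr rfl (fun k _ => integral_mul_const _ _)

/-- the density of `nu (n + 1)` -/
noncomputable def H (n : ℕ) : Lp ℝ 1 ((dom b).restrict G) :=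
  ∑ k, (∫ x, a k x ∂(nu P' X G n)) • rh b G k

variable (hX : ∀ n, Measurable (X n)) (hG : MeasurableSet G)
    (hM : ∀ (n : ℕ) (C : Set (Fin (n + 1) → S)) (B : Set S), MeasurableSet C → MeasurableSet B →
      P' {ω | (fun i : Fin (n + 1) => X i ω) ∈ C ∧ X (n + 1) ω ∈ B} =
        ∫⁻ ω in {ω | (fun i : Fin (n + 1) => X i ω) ∈ C}, κ (X n ω) B ∂P')
    (ha : ∀ j, Measurable (a j)) (hab : ∀ j, ∃ C : ℝ, ∀ x, |a j x| ≤ C)
    (hκ : ∀ x B, MeasurableSet B → (κ x B).toReal = ∑ j, a j x * b j B)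

include hX hG hM ha hab hκ in
theorem H_int (n : ℕ) {B : Set S} (hB : MeasurableSet B) :
    ∫ x in B, (H P' X G a b n) x ∂((dom b).restrict G) = (nu P' X G (n + 1) B).toReal := by
  unfold H
  rw [sum_int b _ hB hG, nu_real P' X G κ a b hX hG hM ha hab hκ n hB]

include hX hG hM ha hab hκ in
theorem H_nonneg (n : ℕ) : 0 ≤ H P' X G a b n := by
  rw [← Lp.coeFn_nonneg]
  apply ae_nonneg_of_forall_setIntegral_nonneg (L1.integrable_coeFn _)
  intro B hB _
  rw [H_int P' X G κ a b hX hG hM ha hab hκ n hB]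
  exact ENNReal.toReal_nonneg

include hX hG hM ha hab hκ in
theorem nu_eq (n : ℕ) : nu P' X G (n + 1) = ((dom b).restrict G).withDensity
    (fun x => (((H P' X G a b n) x).toNNReal : ℝ≥0∞)) := by
  ext B hB
  rw [withDensity_apply _ hB]
  have h1 : ∫⁻ x in B, (((H P' X G a b n) x).toNNReal : ℝ≥0∞) ∂((dom b).restrict G) =
      ENNReal.ofReal (∫ x in B, (H P' X G a b n) x ∂((dom b).restrict G)) := by
    rw [ofReal_integral_eq_lintegral_ofReal (L1.integrable_coeFn _).integrableOn]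
    · rfl
    · exact ae_restrict_of_ae ((Lp.coeFn_nonneg _).2 (H_nonneg P' X G κ a b hX hG hM ha hab hκ n))
  rw [h1, H_int P' X G κ a b hX hG hM ha hab hκ n hB, ENNReal.ofReal_toReal (measure_ne_top _ _)]

include hX hG hM ha hab hκ in
theorem nu_integral (n : ℕ) (k : Fin r) : ∫ x, a k x ∂(nu P' X G (n + 1)) =
    ∫ x, a k x * (H P' X G a b n) x ∂((dom b).restrict G) := by
  rw [nu_eq P' X G κ a b hX hG hM ha hab hκ n]
  have hm : Measurable (fun x => ((H P' X G a b n) x).toNNReal) :=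
    (Lp.stronglyMeasurable _).measurable.real_toNNReal
  rw [integral_withDensity_eq_integral_smul hm]
  apply integral_congr_ae
  filter_upwards [(Lp.coeFn_nonneg _).2 (H_nonneg P' X G κ a b hX hG hM ha hab hκ n)] with x hx
  rw [NNReal.smul_def, Real.coe_toNNReal _ hx, smul_eq_mul, mul_comm]

/-- the operator -/
noncomputable def theOp : Op ((dom b).restrict G) where
  r := r
  a := a
  ρ := rh b G
  meas := ha
  bdd := hab
  c := 2
  c0 := by norm_num
  pos := fun h hh B hB => pos_aux κ a b ha hG hκ hab h hh B hB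

include hX hM in
theorem T_H (n : ℕ) : (theOp G κ a b hG ha hab hκ).T (H P' X G a b n) =
    (2 : ℝ) • H P' X G a b (n + 1) := by
  unfold Op.T
  rw [Op.TB_apply]
  change (2 : ℝ) • ∑ k, (∫ x in Set.univ, a k x * (H P' X G a b n) x ∂((dom b).restrict G)) •
    rh b G k = _
  congr 1
  conv_rhs => rw [H]
  refine Finset.sum_congr rfl (fun k _ => ?_)
  rw [nu_integral P' X G κ a b hX hG hM ha hab hκ n k, Measure.restrict_univ]

include hX hM in
theorem pow_H (n : ℕ) : ((theOp G κ a b hG ha hab hκ).T ^ n) (H P' X G a b 0) =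
    (2 : ℝ) ^ n • H P' X G a b n := by
  induction n with
  | zero => simp
  | succ n ih =>
    rw [Op.pow_succ_apply, ih, map_smul, T_H P' X G κ a b hX hG hM ha hab hκ n, smul_smul,
      ← pow_succ]

include hX hG hM ha hab hκ in
theorem g_H (n : ℕ) : Op.g (H P' X G a b n) = (P' (ev X G (n + 1))).toReal := by
  rw [Op.g_apply]
  have h1 := H_int P' X G κ a b hX hG hM ha hab hκ n MeasurableSet.univ
  rw [Measure.restrict_univ] at h1
  rw [h1]
  unfold nu
  rw [Measure.map_apply (hX _) MeasurableSet.univ, Set.preimage_univ, Measure.restrict_apply_univ]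

end

theorem w_pow (n : ℕ) : (cexp (-I)) ^ n = cexp (-(n * I)) := by
  rw [← Complex.exp_nat_mul]
  congr 1
  ring

theorem w_norm : ‖cexp (-I)‖ = 1 := by
  rw [Complex.norm_exp]; simp

theorem w_ne (n : ℕ) (hn : 0 < n) : (cexp (-I)) ^ n ≠ 1 := by
  rw [w_pow]
  intro h
  rw [Complex.exp_eq_one_iff] at h
  obtain ⟨k, hk⟩ := h
  have h1 : (-(n : ℝ)) = k * (2 * Real.pi) := by
    have h2 := congrArg Complex.im hk
    simpa using h2
  have hk0 : k ≠ 0 := by
    rintro rfl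
    rw [Int.cast_zero, zero_mul] at h1
    have : (n : ℝ) = 0 := by linarith
    exact hn.ne' (by exact_mod_cast this)
  have hk0' : (k : ℝ) ≠ 0 := by exact_mod_cast hk0
  apply irrational_pi
  refine ⟨-(n : ℚ) / (2 * k), ?_⟩
  push_cast
  field_simp
  linarith

theorem L_ne : L (fun n : ℕ => (cexp (-I)) ^ n *
    (((3 + Real.cos ((n : ℝ) + 3)) / 16 : ℝ) : ℂ)) ≠ 0 := by
  have h1 : (fun n : ℕ => (cexp (-I)) ^ n * (((3 + Real.cos ((n : ℝ) + 3)) / 16 : ℝ) : ℂ)) =
      fun n : ℕ => (3 / 16 : ℂ) * (cexp (-I)) ^ n + (cexp (3 * I) / 32 +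
        (cexp (-(3 * I)) / 32) * ((cexp (-I)) ^ 2) ^ n) := by
    funext n
    have e1 : ((cexp (-I)) ^ 2) ^ n = cexp (-(n * I)) * cexp (-(n * I)) := by
      rw [← pow_mul, mul_comm 2 n, pow_mul, w_pow, sq]
    have e2 : (((Real.cos ((n : ℝ) + 3)) : ℝ) : ℂ) =
        (cexp (n * I) * cexp (3 * I) + cexp (-(n * I)) * cexp (-(3 * I))) / 2 := by
      rw [Complex.ofReal_cos, Complex.cos, ← Complex.exp_add, ← Complex.exp_add]
      push_cast
      congr 2
      · congr 1; ring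
      · congr 1; ring
    have e3 : cexp (-(n * I)) * cexp (n * I) = 1 := by
      rw [← Complex.exp_add, neg_add_cancel, Complex.exp_zero]
    rw [e1, w_pow]
    push_cast
    have e2' : Complex.cos ((n : ℂ) + 3) =
        (cexp (n * I) * cexp (3 * I) + cexp (-(n * I)) * cexp (-(3 * I))) / 2 := by
      rw [← e2]; push_cast; rfl
    rw [e2']
    linear_combination (cexp (3 * I) / 32) * e3
  have hw2 : ‖(cexp (-I)) ^ 2‖ = 1 := by rw [norm_pow, w_norm, one_pow]
  have b1 : ∃ C : ℝ, ∀ n : ℕ, ‖(cexp (-I)) ^ n‖ ≤ C :=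
    ⟨1, fun n => by rw [norm_pow, w_norm, one_pow]⟩
  have b2 : ∃ C : ℝ, ∀ n : ℕ, ‖((cexp (-I)) ^ 2) ^ n‖ ≤ C :=
    ⟨1, fun n => by rw [norm_pow, hw2, one_pow]⟩
  have bs : ∀ (c : ℂ) (s : ℕ → ℂ), (∃ C : ℝ, ∀ n : ℕ, ‖s n‖ ≤ C) →
      ∃ C : ℝ, ∀ n : ℕ, ‖c * s n‖ ≤ C := by
    rintro c s ⟨C, hC⟩
    exact ⟨‖c‖ * C, fun n => by
      rw [norm_mul]; exact mul_le_mul_of_nonneg_left (hC n) (norm_nonneg _)⟩
  have bc : ∃ C : ℝ, ∀ n : ℕ, ‖(fun _ : ℕ => cexp (3 * I) / 32) n‖ ≤ C := ⟨_, fun n => le_rfl⟩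
  have ba : ∀ s t : ℕ → ℂ, (∃ C : ℝ, ∀ n : ℕ, ‖s n‖ ≤ C) → (∃ C : ℝ, ∀ n : ℕ, ‖t n‖ ≤ C) →
      ∃ C : ℝ, ∀ n : ℕ, ‖s n + t n‖ ≤ C := by
    rintro s t ⟨C, hC⟩ ⟨D, hD⟩
    exact ⟨C + D, fun n => (norm_add_le _ _).trans (add_le_add (hC n) (hD n))⟩
  rw [h1, L_add (bs _ _ b1) (ba _ _ bc (bs _ _ b2)), L_smul _ b1, L_add bc (bs _ _ b2),
    L_smul _ b2, L_pow w_norm, L_pow hw2, L_const]
  · rw [mul_zero, mul_zero, zero_add, add_zero]
    exact div_ne_zero (Complex.exp_ne_zero _) (by norm_num)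
  · exact w_ne 2 (by norm_num)
  · have := w_ne 1 (by norm_num)
    rwa [pow_one] at this

/-- **No finite rank Markov process** can have the survival probabilities
`2⁻ⁿ (3 + cos n) / 4` in a set of states. -/
theorem no_rank {S : Type*} [MeasurableSpace S] {Ω' : Type*} [MeasurableSpace Ω'] (P' : Measure Ω')
    [IsProbabilityMeasure P'] (X : ℕ → Ω' → S) (G : Set S) (κ : Kernel S S) [IsMarkovKernel κ]
    {r : ℕ} (a : Fin r → S → ℝ) (b : Fin r → SignedMeasure S)
    (hX : ∀ n, Measurable (X n)) (hG : MeasurableSet G)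
    (hM : ∀ (n : ℕ) (C : Set (Fin (n + 1) → S)) (B : Set S), MeasurableSet C → MeasurableSet B →
      P' {ω | (fun i : Fin (n + 1) => X i ω) ∈ C ∧ X (n + 1) ω ∈ B} =
        ∫⁻ ω in {ω | (fun i : Fin (n + 1) => X i ω) ∈ C}, κ (X n ω) B ∂P')
    (ha : ∀ j, Measurable (a j)) (hb : LinearIndependent ℝ b)
    (hκ : ∀ x B, MeasurableSet B → (κ x B).toReal = ∑ j, a j x * b j B)
    (hs : ∀ n : ℕ, (P' (ev X G n)).toReal =
      (1 / 2) ^ (n + 1) * ((3 + Real.cos ((n : ℝ) + 1)) / 4)) : False := by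
  have hab := a_bdd κ a b hb hκ
  set O := theOp G κ a b hG ha hab hκ with hO
  have hg : ∀ n : ℕ, Op.g ((O.T ^ n) (H P' X G a b 0)) = (3 + Real.cos ((n : ℝ) + 2)) / 16 := by
    intro n
    rw [hO, pow_H P' X G κ a b hX hG hM ha hab hκ n, map_smul,
      g_H P' X G κ a b hX hG hM ha hab hκ n, hs, smul_eq_mul, one_div, inv_pow]
    have : (2 : ℝ) ^ n ≠ 0 := by positivity
    push_cast
    rw [show (n : ℝ) + 1 + 1 = n + 2 by ring, pow_add, pow_add]
    field_simp
    ring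
  refine O.contra (H P' X G a b 0) (H_nonneg P' X G κ a b hX hG hM ha hab hκ 0) (cexp (-I))
    w_norm w_ne ⟨1, fun n => ?_⟩ ?_
  · rw [hg, Real.norm_eq_abs, abs_le]
    have h1 := Real.neg_one_le_cos ((n : ℝ) + 2)
    have h2 := Real.cos_le_one ((n : ℝ) + 2)
    constructor <;> linarith
  · have e : (fun n : ℕ => (cexp (-I)) ^ n * (Op.g ((O.T ^ n) (O.T (H P' X G a b 0))) : ℂ)) =
        fun n : ℕ => (cexp (-I)) ^ n * (((3 + Real.cos ((n : ℝ) + 3)) / 16 : ℝ) : ℂ) := by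
      funext n
      rw [← Module.End.mul_apply, ← pow_succ, hg]
      push_cast
      rw [show (n : ℂ) + 1 + 2 = n + 3 by ring]
    rw [e]
    exact L_ne

end Pool.Agent.X127.FR
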